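import Mathlib
import Pool.Agent.Lib.MP_1684af_al.Pos.E

set_option autoImplicit false

namespace Pool.Agent.Results.MP_1684af_al.ModuleFinite

open Pool.Agent.Lib.MP_cfafa5_al Pool.Agent.Lib.MP_1684af_al

/-- `ψ → φ`: the formula `ψ` implies `φ` in every module. -/
def Implies {S : Type} [Ring S] {n : ℕ} (ψ φ : PP S n) : Prop :=
  ∀ (M : Type) [AddCommGroup M] [Module S M], ψ.ev M ⊆ φ.ev M

/-- The basic open set `(φ / ψ)` of the Ziegler spectrum. -/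
def basic {S : Type} [Ring S] {n : ℕ} (φ ψ : PP S n) : Set (Zg.{0} S) :=
  {z | ∃ N : PInj.{0} S, Quot.mk _ N = z ∧ φ.ev N.1 ≠ ψ.ev N.1}

/-- The Ziegler topology, generated by the sets `(φ / ψ)` for all pp-pairs. -/
@[reducible] def zgTop (S : Type) [Ring S] : TopologicalSpace (Zg.{0} S) :=
  TopologicalSpace.generateFrom {U | ∃ (n : ℕ) (φ ψ : PP S n), Implies ψ φ ∧ U = basic φ ψ}

theorem mk_eq {S : Type} [Ring S] {N N' : PInj.{0} S} :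
    (Quot.mk _ N : Zg.{0} S) = Quot.mk _ N' ↔ Nonempty (N.1 ≃ₗ[S] N'.1) := by
  have heq : Equivalence fun P Q : PInj.{0} S => Nonempty (P.1 ≃ₗ[S] Q.1) :=
    ⟨fun _ => ⟨LinearEquiv.refl _ _⟩, fun ⟨e⟩ => ⟨e.symm⟩, fun ⟨e⟩ ⟨e'⟩ => ⟨e.trans e'⟩⟩
  exact ⟨fun h => heq.eqvGen_iff.1 (Quot.eqvGen_exact h), fun h => Quot.sound h⟩

theorem mk_mem {S : Type} [Ring S] {n : ℕ} {φ ψ : PP S n} {N : PInj.{0} S} :
    Quot.mk _ N ∈ basic φ ψ ↔ φ.ev N.1 ≠ ψ.ev N.1 := by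
  refine ⟨fun ⟨N', h, h'⟩ c => h' ?_, fun h => ⟨N, rfl, h⟩⟩
  obtain ⟨e⟩ := mk_eq.1 h
  ext x
  rw [← Pos.ev_equiv e, ← Pos.ev_equiv e, c]

theorem exists_basic {S : Type} [Ring S] {U : Set (Zg.{0} S)} (hU : @IsOpen _ (zgTop S) U) :
    ∀ N : PInj.{0} S, Quot.mk _ N ∈ U → ∃ (n : ℕ) (φ ψ : PP S n), Implies ψ φ ∧
      φ.ev N.1 ≠ ψ.ev N.1 ∧ basic φ ψ ⊆ U := by
  induction hU with
  | basic U h =>
    obtain ⟨n, φ, ψ, h1, rfl⟩ := h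
    exact fun N hN => ⟨n, φ, ψ, h1, mk_mem.1 hN, subset_rfl⟩
  | univ =>
    refine fun N _ => ⟨1, Pos.top S 1, Pos.bot S 1, fun _ _ _ x _ => Pos.mem_top x, fun h => ?_,
      Set.subset_univ _⟩
    have := N.2.1.1
    obtain ⟨x, hx⟩ := exists_ne (0 : N.1)
    exact hx (congrFun (Pos.mem_bot.1 (h ▸ Pos.mem_top (S := S) fun _ : Fin 1 => x)) 0)
  | inter U V _ _ ih ih' =>
    intro N hN
    obtain ⟨n, φ, ψ, h1, h2, h3⟩ := ih N hN.1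
    obtain ⟨k, φ', ψ', k1, k2, k3⟩ := ih' N hN.2
    obtain ⟨α, κ, c1, c2, c3⟩ := Pos.exists_inter N h1 k1 h2 k2
    refine ⟨_, α, κ, c1, c2, ?_⟩
    rintro _ ⟨N', rfl, h⟩
    exact ⟨h3 (mk_mem.2 (c3 _ h).1), k3 (mk_mem.2 (c3 _ h).2)⟩
  | sUnion C _ ih =>
    rintro N ⟨U, hU, hN⟩
    obtain ⟨n, φ, ψ, h1, h2, h3⟩ := ih U hU N hN
    exact ⟨n, φ, ψ, h1, h2, h3.trans (Set.subset_sUnion_of_mem hU)⟩

/-- If `R` is finitely generated as a module over a commutative ring `A` acting centrally, every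
isolated point of the right Ziegler spectrum of `R` is isolated by a minimal pair. Right
`R`-modules are left modules over the opposite ring. -/
theorem result (A R : Type) [CommRing A] [Ring R] [Algebra A R] [Module.Finite A R]
    (z : Zg.{0} Rᵐᵒᵖ) (hz : @IsOpen _ (zgTop Rᵐᵒᵖ) {z}) :
    ∃ (n : ℕ) (φ ψ : PP Rᵐᵒᵖ n), Implies ψ φ ∧ basic φ ψ = {z} ∧
      ∀ (M : Type) [AddCommGroup M] [Module Rᵐᵒᵖ M], φ.ev M ≠ ψ.ev M → IsMinimalFor M φ ψ := by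
  have : Module.Finite A Rᵐᵒᵖ := Module.Finite.equiv (MulOpposite.opLinearEquiv A)
  obtain ⟨N, rfl⟩ := Quot.exists_rep z
  obtain ⟨n, φ, ψ, h1, h2, h3⟩ := exists_basic hz N rfl
  obtain ⟨α, κ, c1, c2, c3, c4⟩ := Pos.exists_atom N
    (fun N' h => mk_eq.1 (h3 (mk_mem.2 h))) A h1 fun h => h2 ((h _).antisymm (h1 _))
  refine ⟨n, α, κ, c1, Set.Subset.antisymm ?_ ?_, Pos.minimal_of_atom c1 c4⟩
  · rintro _ ⟨N', rfl, h⟩
    exact h3 (mk_mem.2 (c3 _ h))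
  · rintro _ rfl
    exact mk_mem.2 c2

end Pool.Agent.Results.MP_1684af_al.ModuleFinite
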