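import Mathlib
import Pool.Agent.Lib.MP_1684af_al.Final

universe v

namespace Pool.Agent.Results.MP_1684af_al.OnePoint

open Pool.Agent.Lib.MP_cfafa5_al Pool.Agent.Lib.MP_1684af_al

/-- There is a ring `R` whose right Ziegler spectrum has exactly one point (which is therefore
isolated), while no pp-pair is `M`-minimal for any right `R`-module `M`. Right `R`-modules are
left modules over the opposite ring. -/
theorem result : ∃ (R : Type) (_ : Ring R), (∃ N : Zg.{v} Rᵐᵒᵖ, ∀ N', N' = N) ∧
    ∀ (M : Type v) [AddCommGroup M] [Module Rᵐᵒᵖ M] (n : ℕ) (φ ψ : PP Rᵐᵒᵖ n),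
      ¬ IsMinimalFor M φ ψ :=
  final

end Pool.Agent.Results.MP_1684af_al.OnePoint
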